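import Pool.Agent.Helper13_FK.Stmts

/-!
# Squad FK, module LIN: almost all values on a line are good
-/

namespace Pool.Agent.FK.H10

open Polynomial

/-- The roots on the line. -/
lemma roots_card (Φ : ℤ[X]) (hΦ : Φ ≠ 0) (H : ℕ) :
    {t : ℕ | t < H ∧ Φ.eval (t : ℤ) = 0}.ncard ≤ Φ.natDegree := by
  classical
  have h1 : {t : ℕ | t < H ∧ Φ.eval (t : ℤ) = 0}.ncard ≤
      ((Φ.roots.toFinset : Finset ℤ) : Set ℤ).ncard := by
    apply Set.ncard_le_ncard_of_injOn (fun t : ℕ => (t : ℤ))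
    · intro t ht
      have ht' : t < H ∧ Φ.eval (t : ℤ) = 0 := ht
      simp only [Finset.mem_coe, Multiset.mem_toFinset]
      exact (Polynomial.mem_roots hΦ).2 ht'.2
    · intro x _ y _ hxy
      exact Nat.cast_injective (R := ℤ) hxy
  rw [Set.ncard_coe_finset] at h1
  exact h1.trans ((Multiset.toFinset_card_le _).trans (Polynomial.card_roots' Φ))

/-- A bound with a smaller saving. -/
lemma weaken (H : ℕ) (hH : 1 ≤ H) (x C η η' : ℝ) (hx : x ≤ C * (H : ℝ) ^ (1 - η'))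
    (hη : η ≤ η') : x ≤ |C| * (H : ℝ) ^ (1 - η) := by
  have hH1 : (1 : ℝ) ≤ H := by exact_mod_cast hH
  have h1 : (H : ℝ) ^ (1 - η') ≤ (H : ℝ) ^ (1 - η) :=
    Real.rpow_le_rpow_of_exponent_le hH1 (by linarith)
  have h2 : (0 : ℝ) ≤ (H : ℝ) ^ (1 - η') := by positivity
  calc x ≤ C * (H : ℝ) ^ (1 - η') := hx
    _ ≤ |C| * (H : ℝ) ^ (1 - η') := mul_le_mul_of_nonneg_right (le_abs_self _) h2
    _ ≤ |C| * (H : ℝ) ^ (1 - η) := mul_le_mul_of_nonneg_left h1 (abs_nonneg _)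

/-- LIN: almost all values on a line are good. -/
theorem lin (la : LaStmt) (lb : LbStmt) (lc : LcStmt) (ld : LdStmt) : LinStmt := by
  classical
  intro d a C₁ c δ δ' hd ha hδ hδδ hδ'
  have hδ1 : δ < 1 := by linarith
  have hδ'0 : 0 < δ' := by linarith
  obtain ⟨η1, hη1, A1, hA⟩ := la d a C₁ c δ hd ha hδ hδ1
  obtain ⟨η2, hη2, A2, hB⟩ := lb d a C₁ c δ hd ha hδ hδ1
  obtain ⟨η3, hη3, A3, hC⟩ := lc d a C₁ c (δ' / 2) hd ha (by linarith)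
  obtain ⟨η4, hη4, A4, hD⟩ := ld d a C₁ c δ (δ' / 2) hd ha hδ (by linarith) (by linarith)
  obtain ⟨η, hη⟩ : ∃ η : ℝ, η = min (min (min η1 η2) (min η3 η4)) 1 := ⟨_, rfl⟩
  have e1 : η ≤ η1 := by
    rw [hη]; exact (min_le_left _ _).trans ((min_le_left _ _).trans (min_le_left _ _))
  have e2 : η ≤ η2 := by
    rw [hη]; exact (min_le_left _ _).trans ((min_le_left _ _).trans (min_le_right _ _))
  have e3 : η ≤ η3 := by
    rw [hη]; exact (min_le_left _ _).trans ((min_le_right _ _).trans (min_le_left _ _))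
  have e4 : η ≤ η4 := by
    rw [hη]; exact (min_le_left _ _).trans ((min_le_right _ _).trans (min_le_right _ _))
  have e5 : η ≤ 1 := by rw [hη]; exact min_le_right _ _
  have e0 : 0 < η := by
    rw [hη]
    exact lt_min (lt_min (lt_min hη1 hη2) (lt_min hη3 hη4)) one_pos
  refine ⟨η, e0, d + |A1| + |A2| + |A3| + |A4|, ?_⟩
  intro H Φ Δ hH hLP
  have hH1 : (1 : ℝ) ≤ H := by exact_mod_cast hH
  have hH0 : (0 : ℝ) < H := by linarith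
  have bA := weaken H hH _ _ η η1 (hA H Φ Δ hH hLP) e1
  have bB := weaken H hH _ _ η η2 (hB H Φ Δ hH hLP) e2
  have bC := weaken H hH _ _ η η3 (hC H Φ Δ hH hLP) e3
  have bD := weaken H hH _ _ η η4 (hD H Φ Δ hH hLP) e4
  have hΦ0 : Φ ≠ 0 := by
    intro h
    have := hLP.lc
    rw [h, leadingCoeff_zero] at this
    exact ha this.symm
  have bR : (({t : ℕ | t < H ∧ Φ.eval (t : ℤ) = 0}.ncard : ℕ) : ℝ) ≤ d * (H : ℝ) ^ (1 - η) := by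
    have h1 : ({t : ℕ | t < H ∧ Φ.eval (t : ℤ) = 0}.ncard : ℕ) ≤ d := by
      rw [← hLP.deg]
      exact roots_card Φ hΦ0 H
    have h2 : (1 : ℝ) ≤ (H : ℝ) ^ (1 - η) := Real.one_le_rpow hH1 (by linarith)
    have h3 : (({t : ℕ | t < H ∧ Φ.eval (t : ℤ) = 0}.ncard : ℕ) : ℝ) ≤ d := by exact_mod_cast h1
    have h4 : (0 : ℝ) ≤ d := Nat.cast_nonneg d
    nlinarith
  set SR : Set ℕ := {t : ℕ | t < H ∧ Φ.eval (t : ℤ) = 0} with hSR
  set SA : Set ℕ := {t : ℕ | t < H ∧ ∃ p : ℕ, p.Prime ∧ (H : ℝ) ^ δ < p ∧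
    (p : ℤ) ∣ Φ.eval (t : ℤ) ∧ (p : ℤ) ∣ Δ} with hSA
  set SB : Set ℕ := {t : ℕ | t < H ∧ ∃ p : ℕ, p.Prime ∧ (H : ℝ) ^ δ < p ∧
    (p : ℝ) ≤ (H : ℝ) ^ (1 - δ) ∧ ¬ (p : ℤ) ∣ Δ ∧ (p : ℤ) ^ 2 ∣ Φ.eval (t : ℤ)} with hSB
  set SC : Set ℕ := {t : ℕ | t < H ∧ Φ.eval (t : ℤ) ≠ 0 ∧ (H : ℝ) ^ (δ' / 2) <
      ((∏ p ∈ (Φ.eval (t : ℤ)).natAbs.primeFactors.filter (fun p => p ∣ (2 * a * Δ).natAbs),
        p ^ (Φ.eval (t : ℤ)).natAbs.factorization p : ℕ) : ℝ)} with hSC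
  set SD : Set ℕ := {t : ℕ | t < H ∧ Φ.eval (t : ℤ) ≠ 0 ∧ (H : ℝ) ^ (δ' / 2) <
      ((∏ p ∈ (Φ.eval (t : ℤ)).natAbs.primeFactors.filter (fun p => ¬ p ∣ (2 * a * Δ).natAbs ∧
          (p : ℝ) ≤ (H : ℝ) ^ δ ∧ p ^ 2 ∣ (Φ.eval (t : ℤ)).natAbs),
        p ^ (Φ.eval (t : ℤ)).natAbs.factorization p : ℕ) : ℝ)} with hSD
  have hsub : {t : ℕ | t < H ∧ ¬ LineGood δ δ' H a Φ Δ t} ⊆ SR ∪ (SA ∪ (SB ∪ (SC ∪ SD))) := by
    intro t ht
    by_contra hn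
    simp only [Set.mem_union, not_or] at hn
    obtain ⟨nR, nA, nB, nC, nD⟩ := hn
    obtain ⟨htH, hbad⟩ := ht
    apply hbad
    have h0 : Φ.eval (t : ℤ) ≠ 0 := fun h => nR ⟨htH, h⟩
    have h1 : ∀ p : ℕ, p.Prime → (H : ℝ) ^ δ < p → (p : ℤ) ∣ Φ.eval (t : ℤ) → ¬ (p : ℤ) ∣ Δ :=
      fun p hp hpH hpΦ hpΔ => nA ⟨htH, p, hp, hpH, hpΦ, hpΔ⟩
    have h2 : ∀ p : ℕ, p.Prime → (H : ℝ) ^ δ < p → (p : ℝ) ≤ (H : ℝ) ^ (1 - δ) →
        ¬ (p : ℤ) ^ 2 ∣ Φ.eval (t : ℤ) := by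
      intro p hp hpH hpH' hp2
      have h3 : (p : ℤ) ∣ Φ.eval (t : ℤ) := (dvd_pow_self (p : ℤ) two_ne_zero).trans hp2
      exact nB ⟨htH, p, hp, hpH, hpH', h1 p hp hpH h3, hp2⟩
    refine ⟨h0, h1, h2, ?_⟩
    have h3 : ((∏ p ∈ (Φ.eval (t : ℤ)).natAbs.primeFactors.filter
        (fun p => p ∣ (2 * a * Δ).natAbs),
        p ^ (Φ.eval (t : ℤ)).natAbs.factorization p : ℕ) : ℝ) ≤ (H : ℝ) ^ (δ' / 2) := by
      by_contra h
      exact nC ⟨htH, h0, not_le.1 h⟩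
    have h4 : ((∏ p ∈ (Φ.eval (t : ℤ)).natAbs.primeFactors.filter
        (fun p => ¬ p ∣ (2 * a * Δ).natAbs ∧
          (p : ℝ) ≤ (H : ℝ) ^ δ ∧ p ^ 2 ∣ (Φ.eval (t : ℤ)).natAbs),
        p ^ (Φ.eval (t : ℤ)).natAbs.factorization p : ℕ) : ℝ) ≤ (H : ℝ) ^ (δ' / 2) := by
      by_contra h
      exact nD ⟨htH, h0, not_le.1 h⟩
    have h5 : TT δ H (2 * a * Δ).natAbs (Φ.eval (t : ℤ)).natAbs =
        (∏ p ∈ (Φ.eval (t : ℤ)).natAbs.primeFactors.filter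
          (fun p => p ∣ (2 * a * Δ).natAbs), p ^ (Φ.eval (t : ℤ)).natAbs.factorization p) *
        (∏ p ∈ (Φ.eval (t : ℤ)).natAbs.primeFactors.filter
          (fun p => ¬ p ∣ (2 * a * Δ).natAbs ∧
            (p : ℝ) ≤ (H : ℝ) ^ δ ∧ p ^ 2 ∣ (Φ.eval (t : ℤ)).natAbs),
          p ^ (Φ.eval (t : ℤ)).natAbs.factorization p) := by
      rw [TT, ← Finset.prod_union]
      · congr 1
        ext p
        simp only [Finset.mem_filter, Finset.mem_union]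
        tauto
      · rw [Finset.disjoint_left]
        intro p hp hp'
        rw [Finset.mem_filter] at hp hp'
        exact hp'.2.1 hp.2
    rw [h5, Nat.cast_mul]
    have h6 : (H : ℝ) ^ δ' = (H : ℝ) ^ (δ' / 2) * (H : ℝ) ^ (δ' / 2) := by
      rw [← Real.rpow_add hH0]
      congr 1
      ring
    rw [h6]
    exact mul_le_mul h3 h4 (Nat.cast_nonneg _) (by positivity)
  have hfinH : ∀ S : Set ℕ, (∀ t ∈ S, t < H) → S.Finite := fun S hS =>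
    (Set.finite_Iio H).subset hS
  have fR : SR.Finite := hfinH _ fun t ht => ht.1
  have fA : SA.Finite := hfinH _ fun t ht => ht.1
  have fB : SB.Finite := hfinH _ fun t ht => ht.1
  have fC : SC.Finite := hfinH _ fun t ht => ht.1
  have fD : SD.Finite := hfinH _ fun t ht => ht.1
  have hcard : {t : ℕ | t < H ∧ ¬ LineGood δ δ' H a Φ Δ t}.ncard ≤
      SR.ncard + (SA.ncard + (SB.ncard + (SC.ncard + SD.ncard))) := by
    refine (Set.ncard_le_ncard hsub (fR.union (fA.union (fB.union (fC.union fD))))).trans ?_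
    refine (Set.ncard_union_le _ _).trans (Nat.add_le_add_left ?_ _)
    refine (Set.ncard_union_le _ _).trans (Nat.add_le_add_left ?_ _)
    refine (Set.ncard_union_le _ _).trans (Nat.add_le_add_left ?_ _)
    exact Set.ncard_union_le _ _
  have hcard' : ({t : ℕ | t < H ∧ ¬ LineGood δ δ' H a Φ Δ t}.ncard : ℝ) ≤
      SR.ncard + (SA.ncard + (SB.ncard + (SC.ncard + SD.ncard))) := by exact_mod_cast hcard
  have hsum : (d + |A1| + |A2| + |A3| + |A4|) * (H : ℝ) ^ (1 - η) =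
      d * (H : ℝ) ^ (1 - η) + (|A1| * (H : ℝ) ^ (1 - η) + (|A2| * (H : ℝ) ^ (1 - η) +
        (|A3| * (H : ℝ) ^ (1 - η) + |A4| * (H : ℝ) ^ (1 - η)))) := by ring
  rw [hsum]
  linarith

end Pool.Agent.FK.H10
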